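import Mathlib

/-!
MP_16b0ee, project G2: the bathtub estimates.
-/

set_option autoImplicit false

open MeasureTheory Set Metric
open scoped ENNReal Real

namespace Pool.Agent.Helper56.G2

/-- among the sets of given area the disc around `p` has the largest integral of `|w - p|^(-d)` -/
theorem lint_rpow_le (p : ℂ) {d A : ℝ} (hd : 0 < d) (hd2 : d < 2) (hA : 0 ≤ A) {Q : Set ℂ}
    (hQ : volume Q ≤ ENNReal.ofReal A) :
    (∫⁻ w in Q, ENNReal.ofReal (‖w - p‖ ^ (-d))) ≤
      ENNReal.ofReal (2 * π / (2 - d) * (A / π) ^ ((2 - d) / 2)) := by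
  rcases hA.eq_or_lt with rfl | hA
  · have h0 : volume Q = 0 := by simpa using hQ
    rw [Measure.restrict_eq_zero.2 h0]
    simp
  have hmeas : Measurable fun w : ℂ => ‖w - p‖ ^ (-d) := by fun_prop
  rw [lintegral_eq_lintegral_meas_lt _
    (Filter.Eventually.of_forall fun w => Real.rpow_nonneg (norm_nonneg _) _) hmeas.aemeasurable]
  obtain ⟨q, hq⟩ : ∃ q, q = A / π := ⟨_, rfl⟩
  have hq0 : 0 < q := by rw [hq]; positivity
  obtain ⟨c, hc⟩ : ∃ c, c = q ^ (-(d / 2)) := ⟨_, rfl⟩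
  have hc0 : 0 < c := by rw [hc]; exact Real.rpow_pos_of_pos hq0 _
  have ha : -(2 / d) < -1 := by
    rw [neg_lt_neg_iff, lt_div_iff₀ hd]
    linarith
  rw [← Ioc_union_Ioi_eq_Ioi hc0.le, lintegral_union measurableSet_Ioi
    (Set.disjoint_left.2 fun x hx hx' => absurd hx.2 (not_le.2 hx'))]
  have h1 : (∫⁻ t in Ioc 0 c, (volume.restrict Q) {w | t < ‖w - p‖ ^ (-d)}) ≤
      ENNReal.ofReal (A * c) := by
    calc (∫⁻ t in Ioc 0 c, (volume.restrict Q) {w | t < ‖w - p‖ ^ (-d)})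
        ≤ ∫⁻ _ in Ioc (0:ℝ) c, ENNReal.ofReal A := by
          refine lintegral_mono fun t => ?_
          refine (measure_mono (Set.subset_univ _)).trans ?_
          rw [Measure.restrict_apply_univ]
          exact hQ
      _ = ENNReal.ofReal (A * c) := by
          rw [setLIntegral_const, Real.volume_Ioc, sub_zero, ← ENNReal.ofReal_mul hA.le]
  have h2 : (∫⁻ t in Ioi c, (volume.restrict Q) {w | t < ‖w - p‖ ^ (-d)}) ≤
      ENNReal.ofReal (∫ t in Ioi c, π * t ^ (-(2 / d))) := by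
    rw [ofReal_integral_eq_lintegral_ofReal ((integrableOn_Ioi_rpow_of_lt ha hc0).const_mul π)
      ((ae_restrict_iff' measurableSet_Ioi).2 (Filter.Eventually.of_forall fun t ht => by
        have : (0:ℝ) < t := hc0.trans ht
        positivity))]
    refine setLIntegral_mono' measurableSet_Ioi fun t ht => ?_
    have ht0 : 0 < t := hc0.trans ht
    have hsub : {w : ℂ | t < ‖w - p‖ ^ (-d)} ⊆ ball p (t ^ (-(1 / d))) := by
      intro w hw
      rw [Set.mem_ofPred_eq] at hw
      rw [mem_ball, dist_eq_norm]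
      have hx : 0 < ‖w - p‖ := by
        rcases (norm_nonneg (w - p)).eq_or_lt with h | h
        · rw [← h, Real.zero_rpow (by linarith)] at hw
          exact absurd (ht0.trans hw) (lt_irrefl _)
        · exact h
      have h := Real.rpow_lt_rpow_of_neg ht0 hw (show -(1 / d) < 0 by
        rw [neg_lt_zero]; positivity)
      rw [← Real.rpow_mul hx.le] at h
      have e : -d * -(1 / d) = 1 := by field_simp
      rwa [e, Real.rpow_one] at h
    refine (Measure.restrict_apply_le _ _).trans ((measure_mono hsub).trans (le_of_eq ?_))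
    rw [Complex.volume_ball, ENNReal.ofReal_mul Real.pi_pos.le, mul_comm]
    congr 1
    · rw [← ENNReal.ofReal_coe_nnreal, NNReal.coe_real_pi]
    · rw [← ENNReal.ofReal_pow (Real.rpow_nonneg ht0.le _), ← Real.rpow_natCast,
        ← Real.rpow_mul ht0.le]
      congr 2
      push_cast
      ring
  have e2 : (∫ t in Ioi c, π * t ^ (-(2 / d))) = π * (q * c * (d / (2 - d))) := by
    rw [integral_const_mul, integral_Ioi_rpow_of_lt ha hc0, Real.rpow_add hc0, Real.rpow_one]
    have e3 : c ^ (-(2 / d)) = q := by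
      rw [hc, ← Real.rpow_mul hq0.le]
      have : -(d / 2) * -(2 / d) = 1 := by field_simp
      rw [this, Real.rpow_one]
    rw [e3]
    have h4 : -(2 / d) + 1 = -((2 - d) / d) := by field_simp; ring
    have h5 : (2 - d) ≠ 0 := by linarith
    rw [h4]
    field_simp
  refine (add_le_add h1 h2).trans ?_
  rw [e2, ← ENNReal.ofReal_add (by positivity)
    (by have : 0 < 2 - d := by linarith
        positivity)]
  refine le_of_eq ?_
  congr 1
  have e5 : (A / π) ^ ((2 - d) / 2) = q * c := by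
    rw [← hq, hc]
    have : (2 - d) / 2 = 1 + -(d / 2) := by ring
    rw [this, Real.rpow_add hq0, Real.rpow_one]
  have e6 : A = π * q := by rw [hq]; field_simp
  rw [e5, e6]
  have h5 : (2 - d) ≠ 0 := by linarith
  field_simp
  ring

/-- the disc where `|w - p| / |w - p'| > e ^ t` has area at most `π (s / (2 t))²` -/
theorem vol_apollonius (p p' : ℂ) {s t : ℝ} (hs : 0 < s) (hps : ‖p - p'‖ ≤ s) (ht : 0 < t) :
    volume {w : ℂ | Real.exp t * ‖w - p'‖ < ‖w - p‖} ≤ ENNReal.ofReal (π * (s / (2 * t)) ^ 2) := by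
  obtain ⟨la, hla⟩ : ∃ la, la = Real.exp t := ⟨_, rfl⟩
  have hl1 : 1 < la := by rw [hla]; exact Real.one_lt_exp_iff.2 ht
  have hl2 : 0 < la ^ 2 - 1 := by nlinarith
  have hr : la / (la ^ 2 - 1) ≤ 1 / (2 * t) := by
    have h := Real.self_le_sinh_iff.2 ht.le
    rw [Real.sinh_eq, Real.exp_neg, ← hla] at h
    have h3 : t * (2 * la) ≤ la ^ 2 - 1 := by
      have h4 : (la - la⁻¹) * la = la ^ 2 - 1 := by
        field_simp
      nlinarith [h, hl1]
    rw [div_le_div_iff₀ hl2 (by positivity)]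
    nlinarith
  have hsub : {w : ℂ | Real.exp t * ‖w - p'‖ < ‖w - p‖} ⊆
      closedBall (p' - (p - p') / ((la ^ 2 - 1 : ℝ) : ℂ)) (s / (2 * t)) := by
    intro w hw
    rw [Set.mem_ofPred_eq, ← hla] at hw
    rw [mem_closedBall, dist_eq_norm]
    have hr2 : la * ‖p - p'‖ / (la ^ 2 - 1) ≤ s / (2 * t) := by
      calc la * ‖p - p'‖ / (la ^ 2 - 1) = la / (la ^ 2 - 1) * ‖p - p'‖ := by ring
        _ ≤ 1 / (2 * t) * s := by gcongr
        _ = s / (2 * t) := by ring
    refine le_trans ?_ hr2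
    have e1 : w - (p' - (p - p') / ((la ^ 2 - 1 : ℝ) : ℂ)) =
        (w - p') + (1 / (la ^ 2 - 1) : ℝ) • (p - p') := by
      rw [Complex.real_smul]
      push_cast
      ring
    rw [e1]
    obtain ⟨u, hu⟩ : ∃ u, u = w - p' := ⟨_, rfl⟩
    obtain ⟨v, hv⟩ : ∃ v, v = p - p' := ⟨_, rfl⟩
    have e2 : w - p = u - v := by rw [hu, hv]; ring
    rw [e2, ← hu] at hw
    rw [← hu, ← hv]
    refine abs_le_of_sq_le_sq' ?_ (by positivity) |>.2
    rw [norm_add_sq_real, norm_smul, inner_smul_right, Real.norm_eq_abs, abs_of_pos (by positivity),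
      div_pow, mul_pow]
    have h1 : (la * ‖u‖) ^ 2 < ‖u - v‖ ^ 2 := by
      have : 0 ≤ la * ‖u‖ := by positivity
      exact pow_lt_pow_left₀ hw this (by norm_num)
    rw [norm_sub_sq_real, mul_pow] at h1
    have h2 : (la ^ 2 - 1) * (‖u‖ ^ 2 + 2 * (1 / (la ^ 2 - 1) * inner ℝ u v)) ≤ ‖v‖ ^ 2 := by
      have : (la ^ 2 - 1) * (‖u‖ ^ 2 + 2 * (1 / (la ^ 2 - 1) * inner ℝ u v)) =
          (la ^ 2 - 1) * ‖u‖ ^ 2 + 2 * inner ℝ u v := by
        field_simp
      rw [this]
      linarith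
    have h3 : ‖u‖ ^ 2 + 2 * (1 / (la ^ 2 - 1) * inner ℝ u v) ≤ ‖v‖ ^ 2 / (la ^ 2 - 1) := by
      rw [le_div_iff₀ hl2]
      linarith
    have h4 : ‖v‖ ^ 2 / (la ^ 2 - 1) + (1 / (la ^ 2 - 1)) ^ 2 * ‖v‖ ^ 2 =
        (la * ‖v‖) ^ 2 / (la ^ 2 - 1) ^ 2 := by
      field_simp
      ring
    linarith
  refine (measure_mono hsub).trans (le_of_eq ?_)
  rw [Complex.volume_closedBall, ENNReal.ofReal_mul Real.pi_pos.le, mul_comm]
  congr 1
  · rw [← ENNReal.ofReal_coe_nnreal, NNReal.coe_real_pi]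
  · rw [← ENNReal.ofReal_pow (by positivity)]

/-- **the bathtub estimate of a change of the viewpoint** -/
theorem bath (p p' : ℂ) {s m d : ℝ} (hs : 0 < s) (hps : ‖p - p'‖ ≤ s) (hm : 0 < m)
    (hd : 0 < d) (hd1 : d < 1) :
    (∫⁻ w : ℂ, ENNReal.ofReal (‖w - p'‖ ^ (-d) - Real.exp (d * m) * ‖w - p‖ ^ (-d))) ≤
      ENNReal.ofReal (d * (2 / ((2 - d) * (1 - d))) * (π * s ^ 2 / (4 * m)) *
        (s / (2 * m)) ^ (-d)) := by
  obtain ⟨D, hD⟩ : ∃ D : Set (ℂ × ℝ), D = {x | Real.exp x.2 * ‖x.1 - p'‖ < ‖x.1 - p‖} :=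
    ⟨_, rfl⟩
  have hDm : MeasurableSet D := by
    rw [hD]
    exact measurableSet_lt (by fun_prop) (by fun_prop)
  obtain ⟨F, hF⟩ : ∃ F : ℂ → ℝ → ℝ≥0∞, F = fun w t =>
      ENNReal.ofReal d * (ENNReal.ofReal (‖w - p'‖ ^ (-d)) * D.indicator 1 (w, t)) := ⟨_, rfl⟩
  have hFm : Measurable (Function.uncurry F) := by
    rw [hF]
    refine Measurable.const_mul (Measurable.mul ?_ ?_) _
    · fun_prop
    · exact (measurable_one.indicator hDm)
  have hA : ∀ᵐ w : ℂ, ENNReal.ofReal (‖w - p'‖ ^ (-d) - Real.exp (d * m) * ‖w - p‖ ^ (-d)) ≤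
      ∫⁻ t in Ioi m, F w t := by
    have h1 : ∀ᵐ w : ℂ, w ≠ p := by
      rw [ae_iff]
      simp
    have h2 : ∀ᵐ w : ℂ, w ≠ p' := by
      rw [ae_iff]
      simp
    filter_upwards [h1, h2] with w hw hw'
    have hx : 0 < ‖w - p‖ := norm_pos_iff.2 (sub_ne_zero.2 hw)
    have hx' : 0 < ‖w - p'‖ := norm_pos_iff.2 (sub_ne_zero.2 hw')
    obtain ⟨x, hx0⟩ : ∃ x, x = Real.log (‖w - p‖ / ‖w - p'‖) := ⟨_, rfl⟩
    have hxe : ‖w - p‖ = Real.exp x * ‖w - p'‖ := by
      rw [hx0, Real.exp_log (by positivity)]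
      field_simp
    have hind : ∀ t : ℝ, D.indicator (1 : ℂ × ℝ → ℝ≥0∞) (w, t) =
        (Iio x).indicator (1 : ℝ → ℝ≥0∞) t := by
      intro t
      have hiff : (w, t) ∈ D ↔ t ∈ Iio x := by
        rw [hD, Set.mem_ofPred_eq, Set.mem_Iio, hxe]
        simp only
        rw [mul_lt_mul_iff_left₀ hx', Real.exp_lt_exp]
      by_cases h : t ∈ Iio x
      · rw [Set.indicator_of_mem (hiff.2 h), Set.indicator_of_mem h]
        rfl
      · rw [Set.indicator_of_notMem (fun h' => h (hiff.1 h')), Set.indicator_of_notMem h]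
    have hI : (∫⁻ t in Ioi m, F w t) =
        ENNReal.ofReal d * (ENNReal.ofReal (‖w - p'‖ ^ (-d)) * ENNReal.ofReal (x - m)) := by
      rw [hF]
      simp only [hind]
      rw [lintegral_const_mul' _ _ ENNReal.ofReal_ne_top,
        lintegral_const_mul' _ _ ENNReal.ofReal_ne_top, lintegral_indicator_one measurableSet_Iio,
        Measure.restrict_apply measurableSet_Iio]
      congr 2
      have : Iio x ∩ Ioi m = Ioo m x := by
        ext t
        simp only [Set.mem_inter_iff, Set.mem_Iio, Set.mem_Ioi, Set.mem_Ioo]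
        tauto
      rw [this, Real.volume_Ioo]
    rw [hI, ← ENNReal.ofReal_mul (Real.rpow_nonneg hx'.le _), ← ENNReal.ofReal_mul hd.le]
    refine ENNReal.ofReal_le_ofReal ?_
    have e1 : ‖w - p‖ ^ (-d) = Real.exp (-(d * x)) * ‖w - p'‖ ^ (-d) := by
      rw [hxe, Real.mul_rpow (Real.exp_pos _).le hx'.le, ← Real.exp_mul]
      congr 2
      ring
    rw [e1]
    have e2 : Real.exp (d * m) * (Real.exp (-(d * x)) * ‖w - p'‖ ^ (-d)) =
        Real.exp (-(d * (x - m))) * ‖w - p'‖ ^ (-d) := by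
      rw [← mul_assoc, ← Real.exp_add]
      congr 2
      ring
    rw [e2]
    have h3 := Real.add_one_le_exp (-(d * (x - m)))
    have h4 : 0 ≤ ‖w - p'‖ ^ (-d) := Real.rpow_nonneg hx'.le _
    nlinarith
  refine (lintegral_mono_ae hA).trans ?_
  rw [lintegral_lintegral_swap hFm.aemeasurable]
  have hB : ∀ t ∈ Ioi m, (∫⁻ w, F w t) ≤
      ENNReal.ofReal ((d * (2 * π / (2 - d)) * (s / 2) ^ (2 - d)) * t ^ (d - 2)) := by
    intro t ht
    have ht0 : 0 < t := hm.trans ht
    have hDt : MeasurableSet {w : ℂ | Real.exp t * ‖w - p'‖ < ‖w - p‖} :=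
      measurableSet_lt (by fun_prop) (by fun_prop)
    have e1 : (∫⁻ w, F w t) = ENNReal.ofReal d *
        ∫⁻ w in {w : ℂ | Real.exp t * ‖w - p'‖ < ‖w - p‖}, ENNReal.ofReal (‖w - p'‖ ^ (-d)) := by
      rw [hF]
      simp only
      rw [lintegral_const_mul' _ _ ENNReal.ofReal_ne_top, ← lintegral_indicator hDt]
      congr 1
      refine lintegral_congr fun w => ?_
      by_cases h : w ∈ {w : ℂ | Real.exp t * ‖w - p'‖ < ‖w - p‖}
      · have h' : (w, t) ∈ D := by rw [hD]; exact h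
        rw [Set.indicator_of_mem h', Set.indicator_of_mem h, Pi.one_apply, mul_one]
      · have h' : (w, t) ∉ D := by rw [hD]; exact h
        rw [Set.indicator_of_notMem h', Set.indicator_of_notMem h, mul_zero]
    rw [e1]
    have h5 := lint_rpow_le p' hd (by linarith : d < 2) (by positivity)
      (vol_apollonius p p' hs hps ht0)
    refine (mul_le_mul' le_rfl h5).trans (le_of_eq ?_)
    rw [← ENNReal.ofReal_mul hd.le]
    congr 1
    have e6 : π * (s / (2 * t)) ^ 2 / π = (s / (2 * t)) ^ 2 := by field_simp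
    have e7 : ((s / (2 * t)) ^ 2) ^ ((2 - d) / 2) = (s / 2) ^ (2 - d) * t ^ (d - 2) := by
      rw [← Real.rpow_natCast, ← Real.rpow_mul (by positivity)]
      have : ((2 : ℕ) : ℝ) * ((2 - d) / 2) = 2 - d := by push_cast; ring
      rw [this]
      have e8 : s / (2 * t) = s / 2 * t⁻¹ := by field_simp
      rw [e8, Real.mul_rpow (by positivity) (by positivity), Real.inv_rpow ht0.le,
        ← Real.rpow_neg ht0.le]
      congr 2
      ring
    rw [e6, e7]
    ring
  refine (setLIntegral_mono' measurableSet_Ioi hB).trans ?_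
  have ha : d - 2 < -1 := by linarith
  have hC : 0 ≤ d * (2 * π / (2 - d)) * (s / 2) ^ (2 - d) := by
    have : 0 < 2 - d := by linarith
    positivity
  rw [← ofReal_integral_eq_lintegral_ofReal ((integrableOn_Ioi_rpow_of_lt ha hm).const_mul _)
    ((ae_restrict_iff' measurableSet_Ioi).2 (Filter.Eventually.of_forall fun t ht => by
      have : (0:ℝ) < t := hm.trans ht
      exact mul_nonneg hC (Real.rpow_nonneg this.le _)))]
  refine ENNReal.ofReal_le_ofReal (le_of_eq ?_)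
  rw [integral_const_mul, integral_Ioi_rpow_of_lt ha hm]
  have h2d : (2 - d) ≠ 0 := by linarith
  have h1d : (1 - d) ≠ 0 := by linarith
  have e9 : -m ^ (d - 2 + 1) / (d - 2 + 1) = m ^ d / m / (1 - d) := by
    have : d - 2 + 1 = d - 1 := by ring
    rw [this, Real.rpow_sub_one hm.ne']
    have h6 : d - 1 ≠ 0 := by linarith
    field_simp
    ring
  have e10 : (s / 2) ^ (2 - d) = (s / 2) ^ 2 * (s / 2) ^ (-d) := by
    have : 2 - d = ((2 : ℕ) : ℝ) + -d := by push_cast; ring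
    rw [this, Real.rpow_add (by positivity), Real.rpow_natCast]
  have e11 : (s / (2 * m)) ^ (-d) = (s / 2) ^ (-d) * m ^ d := by
    have : s / (2 * m) = s / 2 * m⁻¹ := by field_simp
    rw [this, Real.mul_rpow (by positivity) (by positivity), Real.inv_rpow hm.le,
      Real.rpow_neg hm.le, inv_inv]
  rw [e9, e10, e11]
  field_simp
  ring

end Pool.Agent.Helper56.G2
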